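import Pool.Agent.LibKE16.Br3

/-! The equality of Fitting ideals asked for in Q1 fails for the curve `y² = x³ - x² - 3x - 1`, `p = 3`, `m = 193`. -/

open WeierstrassCurve KE16

namespace Pool.Agent.Results.MP_3c6ab9_nt.FittingIdealFails

/-- Let `E` be the curve `y² = x³ - x² - 3x - 1` over `ℚ`, `p = 3`, `m = 193`.
(1) `E` has discriminant `512`, so its conductor is a power of `2`; `E` has exactly one affine point over
`𝔽₃`, so `#E(𝔽₃) = 2`, `a₃ = 2`: `3` is a prime of good ordinary reduction and `E(𝔽₃)[3] = 0`; `E[3]` is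
irreducible; `193` is prime to `3 · 512`. So all assumptions of Q1 hold.
(2) The Pontryagin dual `X = Hom(Sel, ℚ/ℤ)` of the `3^∞`-Selmer group `Sel` of `E` over `K_{193,∞}` is a
finitely generated module over `ℛ = lim ℤ₃[(ℤ/193·3ⁿ)ˣ] = ℤ₃[[Gal(K_{193,∞}/ℚ)]]` in the usual way, and its
zeroth Fitting ideal is not generated by two elements.
(3) In particular it is not the right side of the equality in Q1, the ideal generated by the elements
`ν (ϑ_{m'})`, `m' ∣ 193`, whatever the elements `ϑ_{m'}` and the maps `ν` are. -/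
theorem result :
    E0.Δ = 512 ∧
    Nat.card {P : ZMod 3 × ZMod 3 // P.2 ^ 2 = P.1 ^ 3 - P.1 ^ 2 - 3 * P.1 - 1} = 1 ∧
    (∀ P : Pt E0, 3 • P = 0 → P ≠ 0 → ∃ g : GQ, gal E0 g P ≠ P ∧ gal E0 g P ≠ -P) ∧
    Nat.Coprime 193 (3 * 512) ∧
    ∃ _ : Module (IwT 3 193) (SelT E0 3 193),
      (∀ (r : IwT 3 193) (s : SelT E0 3 193), IsActT E0 3 193 r s (r • s)) ∧
      Module.Finite (IwT 3 193) (CharacterModule (SelT E0 3 193)) ∧
      (∀ x y : IwT 3 193, ¬ IsFitt (CharacterModule (SelT E0 3 193)) (Ideal.span {x, y})) ∧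
      ∀ (ν : ∀ m' : ℕ, IwT 3 m' → IwT 3 193) (ϑ : ∀ m' : ℕ, IwT 3 m'),
        ¬ IsFitt (CharacterModule (SelT E0 3 193))
          (⨆ m' ∈ Nat.divisors 193, Ideal.span {ν m' (ϑ m')}) := by
  refine ⟨?_, ?_, fun P h3 h0 ↦ H_irr P h3 h0, by norm_num, ?_⟩
  · simp only [WeierstrassCurve.Δ, b₂, b₄, b₆, b₈, E0]; norm_num
  · rw [Nat.card_eq_fintype_card]
    decide
  · obtain ⟨inst, hact, hfin, hfit⟩ := br_main
    refine ⟨inst, hact, hfin, hfit, fun ν ϑ ↦ ?_⟩
    have e : (⨆ m' ∈ Nat.divisors 193, Ideal.span {ν m' (ϑ m')}) =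
        Ideal.span {ν 1 (ϑ 1), ν 193 (ϑ 193)} := by
      have hd : Nat.divisors 193 = {1, 193} := by decide +kernel
      rw [hd, Ideal.span_insert, Finset.iSup_insert, Finset.iSup_singleton]
    rw [e]
    exact hfit _ _

end Pool.Agent.Results.MP_3c6ab9_nt.FittingIdealFails
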